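import Pool.Agent.BF.RL.Defs

/-! Union bound replaced by a potential argument on pairs of vectors (helper4). -/

namespace Pool.Agent.BF.RL

open Finset

/-- functions that agree at two distinct points: a `1/|Y|` fraction -/
private lemma Hsh_card_agree {P Y : Type} [Fintype P] [DecidableEq P] [Fintype Y] [DecidableEq Y]
    (a b : P) (hab : a ≠ b) :
    Fintype.card Y * ((univ : Finset (P → Y)).filter (fun G => G a = G b)).card
      = Fintype.card (P → Y) := by
  classical
  rw [← Fintype.card_coe, ← Fintype.card_prod]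
  refine Fintype.card_congr ?_
  refine
    { toFun := fun p => Function.update p.2.1 a p.1
      invFun := fun H => (H a, ⟨Function.update H a (H b), ?_⟩)
      left_inv := ?_
      right_inv := ?_ }
  · simp [Function.update_of_ne hab.symm]
  · rintro ⟨y, ⟨G, hG⟩⟩
    simp only [mem_filter, mem_univ, true_and] at hG
    ext1
    · simp
    · apply Subtype.ext
      funext c
      by_cases hc : c = a
      · subst hc
        simp [Function.update_of_ne hab.symm, hG]
      · simp [Function.update_of_ne hc]
  · intro H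
    funext c
    by_cases hc : c = a
    · subst hc; simp
    · simp [Function.update_of_ne hc]

/-- averaging: one function `G` which makes the weight of the colliding pairs small -/
private lemma Hsh_exists_avg {X P Y : Type} [Fintype X] [Fintype P] [DecidableEq P] [Fintype Y]
    [DecidableEq Y] [Nonempty Y] (π : X → P) (W : X → X → ℕ) :
    ∃ G : P → Y,
      Fintype.card Y * (∑ x, ∑ y, if π x ≠ π y ∧ G (π x) = G (π y) then W x y else 0)
        ≤ ∑ x, ∑ y, W x y := by
  classical
  by_contra hcon
  push Not at hcon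
  have h1 : ∑ G : P → Y, (∑ x, ∑ y, W x y)
      < ∑ G : P → Y, Fintype.card Y *
          (∑ x, ∑ y, if π x ≠ π y ∧ G (π x) = G (π y) then W x y else 0) := by
    apply Finset.sum_lt_sum_of_nonempty univ_nonempty
    intro G _
    exact hcon G
  have h2 : ∑ G : P → Y, Fintype.card Y *
          (∑ x, ∑ y, if π x ≠ π y ∧ G (π x) = G (π y) then W x y else 0)
      ≤ ∑ G : P → Y, (∑ x, ∑ y, W x y) := by
    have e1 : ∑ G : P → Y, Fintype.card Y *
          (∑ x, ∑ y, if π x ≠ π y ∧ G (π x) = G (π y) then W x y else 0)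
        = ∑ x, ∑ y, Fintype.card Y *
            ∑ G : P → Y, (if π x ≠ π y ∧ G (π x) = G (π y) then W x y else 0) := by
      simp_rw [Finset.mul_sum]
      rw [Finset.sum_comm]
      refine Finset.sum_congr rfl fun x _ => ?_
      rw [Finset.sum_comm]
    have e2 : ∑ G : P → Y, (∑ x, ∑ y, W x y)
        = ∑ x, ∑ y, Fintype.card (P → Y) * W x y := by
      rw [Finset.sum_const, card_univ, smul_eq_mul, Finset.mul_sum]
      refine Finset.sum_congr rfl fun x _ => ?_
      rw [Finset.mul_sum]
    rw [e1, e2]
    refine Finset.sum_le_sum fun x _ => Finset.sum_le_sum fun y _ => ?_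
    by_cases hxy : π x = π y
    · simp [hxy]
    · have e3 : ∑ G : P → Y, (if π x ≠ π y ∧ G (π x) = G (π y) then W x y else 0)
          = ((univ : Finset (P → Y)).filter (fun G => G (π x) = G (π y))).card * W x y := by
        rw [← Finset.sum_filter, Finset.sum_const, smul_eq_mul]
        congr 2
        ext G
        simp [hxy]
      rw [e3, ← mul_assoc, Hsh_card_agree _ _ hxy]
  exact absurd (lt_of_lt_of_le h1 h2) (lt_irrefl _)

/-- the prefix of `x` before `s` (option version) -/
private def Hsh_pre {S : ℕ} {B : Type} (s : Fin S) (x : Fin S → B) : Fin S → Option B :=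
  fun t => if t < s then some (x t) else none

private lemma Hsh_pre_eq_iff {S : ℕ} {B : Type} (s : Fin S) (x y : Fin S → B) :
    Hsh_pre s x = Hsh_pre s y ↔ ∀ t, t < s → x t = y t := by
  constructor
  · intro h t ht
    have := congrFun h t
    simpa [Hsh_pre, ht] using this
  · intro h
    funext t
    by_cases ht : t < s
    · simp [Hsh_pre, ht, h t ht]
    · simp [Hsh_pre, ht]

/-- number of collisions of `x, y` at the positions of `I` -/
private def Hsh_coll {S g : ℕ} {B Y : Type} [DecidableEq B] [DecidableEq Y]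
    (G : Fin S × Fin g → (Fin S → Option B) → Y) (I : Finset (Fin S × Fin g))
    (x y : Fin S → B) : ℕ :=
  (I.filter (fun p => Hsh_pre p.1 x ≠ Hsh_pre p.1 y ∧ G p (Hsh_pre p.1 x) = G p (Hsh_pre p.1 y))).card

private lemma Hsh_potential {S g : ℕ} {B Y : Type} [Fintype B] [DecidableEq B] [Fintype Y] [DecidableEq Y]
    [Nonempty Y] (I : Finset (Fin S × Fin g)) :
    ∃ G : Fin S × Fin g → (Fin S → Option B) → Y,
      ∑ x : Fin S → B, ∑ y : Fin S → B, (Fintype.card Y) ^ Hsh_coll G I x y
        ≤ 2 ^ I.card * (Fintype.card (Fin S → B)) ^ 2 := by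
  classical
  induction I using Finset.induction_on with
  | empty =>
    refine ⟨fun _ _ => Classical.arbitrary Y, ?_⟩
    simp [Hsh_coll, sq]
  | insert p I hp ih =>
    obtain ⟨G, hG⟩ := ih
    obtain ⟨H, hH⟩ := Hsh_exists_avg (Y := Y) (fun x : Fin S → B => Hsh_pre p.1 x)
      (fun x y => (Fintype.card Y) ^ Hsh_coll G I x y)
    refine ⟨Function.update G p H, ?_⟩
    have hcoll : ∀ x y : Fin S → B, Hsh_coll (Function.update G p H) (insert p I) x y
        = Hsh_coll G I x y + (if Hsh_pre p.1 x ≠ Hsh_pre p.1 y ∧ H (Hsh_pre p.1 x) = H (Hsh_pre p.1 y) then 1 else 0) := by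
      intro x y
      unfold Hsh_coll
      rw [Finset.filter_insert]
      have hI : I.filter (fun q => Hsh_pre q.1 x ≠ Hsh_pre q.1 y ∧
            Function.update G p H q (Hsh_pre q.1 x) = Function.update G p H q (Hsh_pre q.1 y))
          = I.filter (fun q => Hsh_pre q.1 x ≠ Hsh_pre q.1 y ∧ G q (Hsh_pre q.1 x) = G q (Hsh_pre q.1 y)) := by
        apply Finset.filter_congr
        intro q hq
        have hqp : q ≠ p := fun h => hp (h ▸ hq)
        simp [Function.update_of_ne hqp]
      rw [hI]
      simp only [Function.update_self]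
      split_ifs with h
      · rw [Finset.card_insert_of_notMem]
        intro hmem
        exact hp (Finset.mem_of_mem_filter _ hmem)
      · simp
    have hle : ∀ x y : Fin S → B,
        (Fintype.card Y) ^ Hsh_coll (Function.update G p H) (insert p I) x y
          ≤ (Fintype.card Y) ^ Hsh_coll G I x y
            + Fintype.card Y * (if Hsh_pre p.1 x ≠ Hsh_pre p.1 y ∧ H (Hsh_pre p.1 x) = H (Hsh_pre p.1 y)
                then (Fintype.card Y) ^ Hsh_coll G I x y else 0) := by
      intro x y
      rw [hcoll]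
      split_ifs with h
      · rw [pow_succ, mul_comm]
        exact Nat.le_add_left _ _
      · simp
    calc ∑ x : Fin S → B, ∑ y : Fin S → B,
          (Fintype.card Y) ^ Hsh_coll (Function.update G p H) (insert p I) x y
        ≤ ∑ x : Fin S → B, ∑ y : Fin S → B, ((Fintype.card Y) ^ Hsh_coll G I x y
            + Fintype.card Y * (if Hsh_pre p.1 x ≠ Hsh_pre p.1 y ∧ H (Hsh_pre p.1 x) = H (Hsh_pre p.1 y)
                then (Fintype.card Y) ^ Hsh_coll G I x y else 0)) :=
          Finset.sum_le_sum fun x _ => Finset.sum_le_sum fun y _ => hle x y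
      _ = (∑ x : Fin S → B, ∑ y : Fin S → B, (Fintype.card Y) ^ Hsh_coll G I x y)
          + Fintype.card Y * (∑ x : Fin S → B, ∑ y : Fin S → B,
              (if Hsh_pre p.1 x ≠ Hsh_pre p.1 y ∧ H (Hsh_pre p.1 x) = H (Hsh_pre p.1 y)
                then (Fintype.card Y) ^ Hsh_coll G I x y else 0)) := by
          simp_rw [Finset.sum_add_distrib, Finset.mul_sum]
      _ ≤ (∑ x : Fin S → B, ∑ y : Fin S → B, (Fintype.card Y) ^ Hsh_coll G I x y)
          + (∑ x : Fin S → B, ∑ y : Fin S → B, (Fintype.card Y) ^ Hsh_coll G I x y) :=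
          Nat.add_le_add_left hH _
      _ ≤ 2 ^ I.card * (Fintype.card (Fin S → B)) ^ 2
          + 2 ^ I.card * (Fintype.card (Fin S → B)) ^ 2 := Nat.add_le_add hG hG
      _ = 2 ^ (insert p I).card * (Fintype.card (Fin S → B)) ^ 2 := by
          rw [Finset.card_insert_of_notMem hp, pow_succ]; ring

/-- HASH LEMMA: prefix hashes with few collisions for every pair of vectors -/
private theorem Hsh_hash_exists (S g : ℕ) (B Y : Type) [Fintype B] [Fintype Y] [Nonempty Y] :
    ∃ G : Fin S → Fin g → (Fin S → B) → Y,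
      (∀ s j x y, (∀ t, t < s → x t = y t) → G s j x = G s j y) ∧
      ∀ (x y : Fin S → B) (s0 : Fin S), x s0 ≠ y s0 →
        ∀ A : Finset (Fin S × Fin g), (∀ p ∈ A, s0 < p.1 ∧ G p.1 p.2 x = G p.1 p.2 y) →
        (Fintype.card Y) ^ A.card ≤ 2 ^ (S * g) * (Fintype.card B) ^ (2 * S) := by
  classical
  obtain ⟨G, hG⟩ := Hsh_potential (S := S) (g := g) (B := B) (Y := Y) univ
  refine ⟨fun s j x => G (s, j) (Hsh_pre s x), ?_, ?_⟩
  · intro s j x y h
    have : Hsh_pre s x = Hsh_pre s y := (Hsh_pre_eq_iff s x y).2 h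
    simp [this]
  · intro x y s0 hne A hA
    have h1 : A.card ≤ Hsh_coll G univ x y := by
      apply Finset.card_le_card
      intro p hp
      obtain ⟨hs, hc⟩ := hA p hp
      simp only [mem_filter, mem_univ, true_and]
      refine ⟨?_, hc⟩
      intro h
      exact hne ((Hsh_pre_eq_iff _ _ _).1 h s0 hs)
    have hpos : 0 < Fintype.card Y := Fintype.card_pos
    calc (Fintype.card Y) ^ A.card ≤ (Fintype.card Y) ^ Hsh_coll G univ x y :=
          Nat.pow_le_pow_right hpos h1
      _ ≤ ∑ y : Fin S → B, (Fintype.card Y) ^ Hsh_coll G univ x y :=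
          Finset.single_le_sum (f := fun y => (Fintype.card Y) ^ Hsh_coll G univ x y)
            (fun _ _ => Nat.zero_le _) (mem_univ y)
      _ ≤ ∑ x : Fin S → B, ∑ y : Fin S → B, (Fintype.card Y) ^ Hsh_coll G univ x y :=
          Finset.single_le_sum (f := fun x => ∑ y : Fin S → B, (Fintype.card Y) ^ Hsh_coll G univ x y)
            (fun _ _ => Nat.zero_le _) (mem_univ x)
      _ ≤ 2 ^ (univ : Finset (Fin S × Fin g)).card * (Fintype.card (Fin S → B)) ^ 2 := hG
      _ = 2 ^ (S * g) * (Fintype.card B) ^ (2 * S) := by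
          rw [card_univ, Fintype.card_prod, Fintype.card_fin, Fintype.card_fin, Fintype.card_fun,
            Fintype.card_fin, ← pow_mul, mul_comm S 2]


/-- a hash family such that no view has `p` merged pairs `(s, j)` with mixed prefix. -/
theorem exists_hash (E S g B h p : ℕ) (hp : S * B * E + E * E + S * g < h * p) :
    ∃ G : Fam S g B h, ∀ (y : View E (Vec S B)) (π : Prl E) (P : Finset (Fin S × Fin g)),
      (∀ c ∈ P, MixP y π c.1 ∧ Mrg G y π c.1 c.2) → P.card < p := by
  classical
  obtain ⟨G0, hG1, hG2⟩ := Hsh_hash_exists S g (Fin B → Bool) (Fin h → Bool)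
  refine ⟨G0, ?_⟩
  intro y π P hP
  by_contra hcon
  push Not at hcon
  have hp0 : 0 < p := by
    rcases Nat.eq_zero_or_pos p with h0 | h0
    · subst h0; simp at hp
    · exact h0
  have hne : P.Nonempty := by
    rw [← Finset.card_pos]; omega
  obtain ⟨c0, hc0, hmin⟩ := Finset.exists_min_image P (fun c => c.1) hne
  obtain ⟨⟨w, w', hw, hpre⟩, -⟩ := hP c0 hc0
  have hex : ∃ t, t < c0.1 ∧ y w t ≠ y w' t := by
    by_contra hno
    push Not at hno
    apply hpre
    funext t
    unfold pre
    by_cases ht : t < c0.1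
    · simp [ht, hno t ht]
    · simp [ht]
  obtain ⟨t, ht, htne⟩ := hex
  have hE : 2 ≤ E := by
    by_contra hE
    have : w = w' := by
      apply Fin.ext
      have := w.2
      have := w'.2
      omega
    exact htne (by rw [this])
  have hkey := hG2 (y w) (y w') t htne P (by
    intro c hc
    refine ⟨lt_of_lt_of_le ht (hmin c hc), ?_⟩
    have hm := (hP c hc).2 w w' hw
    have e1 : G0 c.1 c.2 (pre c.1 (y w)) = G0 c.1 c.2 (y w) := by
      apply hG1
      intro u hu
      simp [pre, hu]
    have e2 : G0 c.1 c.2 (pre c.1 (y w')) = G0 c.1 c.2 (y w') := by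
      apply hG1
      intro u hu
      simp [pre, hu]
    rw [← e1, ← e2]
    exact hm)
  rw [Fintype.card_fun, Fintype.card_fun, Fintype.card_bool, Fintype.card_fin, Fintype.card_fin,
    ← pow_mul, ← pow_mul, ← pow_add] at hkey
  have hexp : h * P.card ≤ S * g + B * (2 * S) :=
    (Nat.pow_le_pow_iff_right (by norm_num)).1 hkey
  have h1 : h * p ≤ h * P.card := Nat.mul_le_mul_left _ hcon
  have h2 : S * B * 2 ≤ S * B * E := Nat.mul_le_mul_left _ hE
  have h3 : B * (2 * S) = S * B * 2 := by ring
  omega

end Pool.Agent.BF.RL
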