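import Pool.Agent.BF.RL.Defs

namespace Pool.Agent.BF.RL

theorem card_Q (k v i : ℕ) (hk : 1 ≤ k) : (Q k v i).card = k ^ (v + 1 - i) := by
  have hle : k ^ (v + 1 - i) ≤ k ^ (v + 1) := Nat.pow_le_pow_right hk (Nat.sub_le _ _)
  unfold Q
  rw [Fin.card_filter_val_lt]
  exact min_eq_right hle

theorem Q_mono (k v : ℕ) (hk : 1 ≤ k) {i i' : ℕ} (h : i ≤ i') : Q k v i' ⊆ Q k v i := by
  intro j hj
  simp only [Q, Finset.mem_filter, Finset.mem_univ, true_and] at hj ⊢
  exact lt_of_lt_of_le hj (Nat.pow_le_pow_right hk (by omega))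

open Classical in
/-- few heavy levels. -/
theorem heavy_count (E k v S B h p : ℕ) (G : Fam S (k ^ (v + 1)) B h)
    (hG : ∀ (y : View E (Vec S B)) (π : Prl E) (P : Finset (Fin S × Fin (k ^ (v + 1)))),
      (∀ c ∈ P, MixP y π c.1 ∧ Mrg G y π c.1 c.2) → P.card < p)
    (y : View E (Vec S B)) (π : Prl E) (i : ℕ) :
    k ^ (v + 1 - i) * (Finset.univ.filter (fun s => Hvy k v G y π i s)).card ≤ 4 * v * p := by
  set H := Finset.univ.filter (fun s => Hvy k v G y π i s) with hH
  let F : Fin S → Finset (Fin (k ^ (v + 1))) := fun s => (Q k v i).filter (fun j => Mrg G y π s j)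
  let P : Finset (Fin S × Fin (k ^ (v + 1))) := H.sigma F |>.map
    ⟨fun c => (c.1, c.2), by
      rintro ⟨a, b⟩ ⟨a', b'⟩ h
      simp only [Prod.mk.injEq] at h
      obtain ⟨h1, h2⟩ := h
      subst h1; subst h2; rfl⟩
  have hPc : P.card = ∑ s ∈ H, (F s).card := by
    simp only [P, Finset.card_map, Finset.card_sigma]
  have hP : P.card < p := by
    apply hG y π P
    intro c hc
    simp only [P, Finset.mem_map, Finset.mem_sigma, Function.Embedding.coeFn_mk] at hc
    obtain ⟨⟨a, b⟩, ⟨h1, h2⟩, rfl⟩ := hc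
    simp only [hH, Finset.mem_filter, Finset.mem_univ, true_and] at h1
    simp only [F, Finset.mem_filter] at h2
    exact ⟨h1.1, h2.2⟩
  have hsum : k ^ (v + 1 - i) * H.card ≤ ∑ s ∈ H, 4 * v * (F s).card := by
    rw [mul_comm, ← smul_eq_mul]
    apply Finset.card_nsmul_le_sum
    intro s hs
    simp only [hH, Finset.mem_filter, Finset.mem_univ, true_and] at hs
    exact hs.2
  rw [← Finset.mul_sum, ← hPc] at hsum
  exact hsum.trans (Nat.mul_le_mul_left _ hP.le)

end Pool.Agent.BF.RL
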