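import Pool.Agent.BF.RL.Defs

namespace Pool.Agent.BF.RL

variable {E v k S B h : ℕ} {G : Fam S (k ^ (v + 1)) B h} {C' C : Type}
  {R' : View E (Fin h → Bool) → Prl E → C'} {R : View E (Vec S B) → Prl E → C}

private theorem Inv_pre_eq {S B : ℕ} (s : Fin S) (a b : Vec S B) :
    pre s a = pre s b ↔ ∀ t, t < s → a t = b t := by
  constructor
  · intro e t ht
    have h1 := congrFun e t
    simp only [pre, if_pos ht] at h1
    exact h1
  · intro e
    funext t
    by_cases ht : t < s
    · simp only [pre, if_pos ht]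
      exact e t ht
    · simp only [pre, if_neg ht]

/-- views with equal records have the same mixed blocks, mixed prefixes, first mixed block, merged pairs, heavy levels. -/
theorem inv_MixB (hR : IsRec E v k S B h G R' R) {y y' : View E (Vec S B)} {π : Prl E} (e : R y π = R y' π)
    (s : Fin S) : MixB y π s ↔ MixB y' π s := by
  constructor
  · rintro ⟨w, w', hp, hne⟩
    exact ⟨w, w', hp, fun h2 => hne ((hR.r0 y y' π e s w w').2 h2)⟩
  · rintro ⟨w, w', hp, hne⟩
    exact ⟨w, w', hp, fun h2 => hne ((hR.r0 y y' π e s w w').1 h2)⟩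

theorem inv_MixP (hR : IsRec E v k S B h G R' R) {y y' : View E (Vec S B)} {π : Prl E} (e : R y π = R y' π)
    (s : Fin S) : MixP y π s ↔ MixP y' π s := by
  have key : ∀ w w', pre s (y w) = pre s (y w') ↔ pre s (y' w) = pre s (y' w') := by
    intro w w'
    rw [Inv_pre_eq, Inv_pre_eq]
    constructor
    · intro h1 t ht
      exact (hR.r0 y y' π e t w w').1 (h1 t ht)
    · intro h1 t ht
      exact (hR.r0 y y' π e t w w').2 (h1 t ht)
  constructor
  · rintro ⟨w, w', hp, hne⟩
    exact ⟨w, w', hp, fun h2 => hne ((key w w').2 h2)⟩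
  · rintro ⟨w, w', hp, hne⟩
    exact ⟨w, w', hp, fun h2 => hne ((key w w').1 h2)⟩

theorem inv_Fst (hR : IsRec E v k S B h G R' R) {y y' : View E (Vec S B)} {π : Prl E} (e : R y π = R y' π)
    (s : Fin S) : Fst y π s ↔ Fst y' π s := by
  constructor
  · rintro ⟨h1, h2⟩
    exact ⟨(inv_MixB hR e s).1 h1, fun t ht h3 => h2 t ht ((inv_MixB hR e t).2 h3)⟩
  · rintro ⟨h1, h2⟩
    exact ⟨(inv_MixB hR e s).2 h1, fun t ht h3 => h2 t ht ((inv_MixB hR e t).1 h3)⟩

theorem inv_Mrg (hR : IsRec E v k S B h G R' R) {y y' : View E (Vec S B)} {π : Prl E} (e : R y π = R y' π)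
    (s : Fin S) (j : Fin (k ^ (v + 1))) : Mrg G y π s j ↔ Mrg G y' π s j := by
  constructor
  · intro h1 w w' hp
    exact (hR.r0' y y' π e s j w w').1 (h1 w w' hp)
  · intro h1 w w' hp
    exact (hR.r0' y y' π e s j w w').2 (h1 w w' hp)

private theorem Inv_card {α : Type} (A : Finset α) (p q : α → Prop) (dp : DecidablePred p)
    (dq : DecidablePred q) (h : ∀ j, p j ↔ q j) :
    (@Finset.filter α p dp A).card = (@Finset.filter α q dq A).card := by
  apply congrArg Finset.card
  ext j
  simp only [Finset.mem_filter, h j]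

theorem inv_Hvy (hR : IsRec E v k S B h G R' R) {y y' : View E (Vec S B)} {π : Prl E} (e : R y π = R y' π)
    (i : ℕ) (s : Fin S) : Hvy k v G y π i s ↔ Hvy k v G y' π i s := by
  have hf : ∀ j, Mrg G y π s j ↔ Mrg G y' π s j := inv_Mrg hR e s
  unfold Hvy
  rw [inv_MixP hR e s]
  refine and_congr_right (fun _ => ?_)
  constructor
  · intro h2
    exact le_trans h2 (le_of_eq (congrArg (fun z => 4 * v * z) (Inv_card _ _ _ _ _ hf)))
  · intro h2
    exact le_trans h2 (le_of_eq (congrArg (fun z => 4 * v * z) (Inv_card _ _ _ _ _ hf)).symm)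

end Pool.Agent.BF.RL
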