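import Mathlib

namespace Pool.Agent.BF.RL

/-- pigeonhole: some step does not add a new element. -/
theorem pig (O : Type) (A : Finset O) (v : ℕ) (hA : A.card ≤ v) (H : ℕ → Set O) (hH : ∀ i, H i ⊆ ↑A) :
    ∃ i, i ≤ v ∧ ∀ o ∈ H (i + 1), ∃ i', i' ≤ i ∧ o ∈ H i' := by
  classical
  by_contra hcon
  push Not at hcon
  choose f hf1 hf2 using hcon
  let g : Fin (v + 1) → O := fun i => f i.val (Nat.lt_succ_iff.mp i.isLt)
  have hgA : ∀ i, g i ∈ A := fun i => hH _ (hf1 i.val (Nat.lt_succ_iff.mp i.isLt))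
  have hlt : ∀ i j : Fin (v + 1), i.val < j.val → g i ≠ g j := by
    intro i j hij he
    have h1 := hf1 i.val (Nat.lt_succ_iff.mp i.isLt)
    have h2 := hf2 j.val (Nat.lt_succ_iff.mp j.isLt) (i.val + 1) hij
    apply h2
    have he' : f i.val (Nat.lt_succ_iff.mp i.isLt) = f j.val (Nat.lt_succ_iff.mp j.isLt) := he
    rw [← he']
    exact h1
  have hinj : Function.Injective g := by
    intro i j hij
    by_contra hne
    rcases lt_or_gt_of_ne (fun h => hne (Fin.ext h) : i.val ≠ j.val) with h | h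
    · exact hlt i j h hij
    · exact hlt j i h hij.symm
  have hcard : Fintype.card (Fin (v + 1)) ≤ A.card := by
    rw [← Finset.card_univ, ← Finset.card_image_of_injective Finset.univ hinj]
    apply Finset.card_le_card
    intro o ho
    obtain ⟨i, _, rfl⟩ := Finset.mem_image.mp ho
    exact hgA i
  rw [Fintype.card_fin] at hcard
  omega

open Classical in
/-- one index which is good for all members of `A`. -/
theorem choose_index (O J : Type) (A : Finset O) (v : ℕ) (hv : 1 ≤ v) (hA : A.card ≤ v) (Qs : Finset J)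
    (hQ : Qs.Nonempty) (M : O → J → Prop)
    (hM : ∀ o ∈ A, 4 * v * (Qs.filter (fun j => M o j)).card < Qs.card) :
    ∃ j ∈ Qs, ∀ o ∈ A, ¬ M o j := by
  by_contra hcon
  push Not at hcon
  have hsub : Qs ⊆ A.biUnion (fun o => Qs.filter (fun j => M o j)) := by
    intro j hj
    obtain ⟨o, ho, hm⟩ := hcon j hj
    rw [Finset.mem_biUnion]
    exact ⟨o, ho, Finset.mem_filter.mpr ⟨hj, hm⟩⟩
  have h1 : Qs.card ≤ ∑ o ∈ A, (Qs.filter (fun j => M o j)).card :=
    (Finset.card_le_card hsub).trans Finset.card_biUnion_le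
  have h2 : 4 * v * ∑ o ∈ A, (Qs.filter (fun j => M o j)).card ≤ A.card * Qs.card := by
    rw [Finset.mul_sum]
    calc ∑ o ∈ A, 4 * v * (Qs.filter (fun j => M o j)).card ≤ ∑ _o ∈ A, Qs.card :=
          Finset.sum_le_sum (fun o ho => (hM o ho).le)
      _ = A.card * Qs.card := by rw [Finset.sum_const, smul_eq_mul]
  have h3 : A.card * Qs.card ≤ v * Qs.card := Nat.mul_le_mul_right _ hA
  have h4 : 4 * v * Qs.card ≤ v * Qs.card := (Nat.mul_le_mul_left _ h1).trans (h2.trans h3)
  have h5 : 0 < v * Qs.card := Nat.mul_pos hv hQ.card_pos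
  nlinarith

end Pool.Agent.BF.RL
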