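import Pool.Agent.BF.RL.Defs

namespace Pool.Agent.BF.RL

open Relation

/-- something which does not change along the steps is the same at both ends. -/
theorem walk_const {O X α : Type} {E : ℕ} (x : O → View E X) (cl : O → O → Prop) (f : O × Fin E → α)
    (h1 : ∀ o o' w, cl o o' → f (o, w) = f (o', w))
    (h2 : ∀ p q : O × Fin E, x p.1 p.2 = x q.1 q.2 → f p = f q) {p q : O × Fin E}
    (h : EqvGen (Step x cl) p q) : f p = f q := by
  induction h with
  | rel a b hab =>
    rcases hab with ⟨hw, hc⟩ | he
    · obtain ⟨o, w⟩ := a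
      obtain ⟨o', w'⟩ := b
      simp only at hw hc
      subst hw
      exact h1 o o' w hc
    · exact h2 a b he
  | refl a => rfl
  | symm a b _ ih => exact ih.symm
  | trans a b c _ _ ih1 ih2 => exact ih1.trans ih2

/-- the connectedness survives when the values are hashed. -/
theorem walk_map {O X Y : Type} {E : ℕ} (x : O → View E X) (cl : O → O → Prop) (F : X → Y) {p q : O × Fin E}
    (h : EqvGen (Step x cl) p q) : EqvGen (Step (fun o w => F (x o w)) cl) p q := by
  induction h with
  | rel a b hab =>
    apply EqvGen.rel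
    rcases hab with hc | he
    · exact Or.inl hc
    · exact Or.inr (congrArg F he)
  | refl a => exact EqvGen.refl a
  | symm a b _ ih => exact EqvGen.symm _ _ ih
  | trans a b c _ _ ih1 ih2 => exact EqvGen.trans _ _ _ ih1 ih2

/-- first mixed block: existence, and a mixed prefix behind it. -/
theorem exists_fst {E S B : ℕ} (y : View E (Vec S B)) (π : Prl E) (h : ∃ w w', π w w' ∧ y w ≠ y w') :
    ∃ s, Fst y π s := by
  classical
  obtain ⟨w, w', hp, hne⟩ := h
  have hs : ∃ s, MixB y π s := by
    by_contra hcon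
    push Not at hcon
    apply hne
    funext s
    by_contra hs
    exact hcon s ⟨w, w', hp, hs⟩
  obtain ⟨s0, hs0⟩ := hs
  have hwf : WellFounded (fun a b : Fin S => a < b) := wellFounded_lt
  refine ⟨hwf.min {s | MixB y π s} ⟨s0, hs0⟩, hwf.min_mem {s | MixB y π s} ⟨s0, hs0⟩, ?_⟩
  intro t ht hm
  exact hwf.not_lt_min {s | MixB y π s} hm ht

theorem fst_unique {E S B : ℕ} {y : View E (Vec S B)} {π : Prl E} {s t : Fin S} (h : Fst y π s) (h' : Fst y π t) :
    s = t := by
  rcases lt_trichotomy s t with hlt | heq | hgt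
  · exact absurd h.1 (h'.2 s hlt)
  · exact heq
  · exact absurd h'.1 (h.2 t hgt)

theorem fst_mixP {E S B : ℕ} {y : View E (Vec S B)} {π : Prl E} {s t : Fin S} (h : Fst y π s) (hst : s < t) :
    MixP y π t := by
  obtain ⟨w, w', hp, hne⟩ := h.1
  refine ⟨w, w', hp, ?_⟩
  intro he
  apply hne
  have := congrFun he s
  simpa [pre, hst] using this

end Pool.Agent.BF.RL
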