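import Pool.Agent.BF.RL.Defs
import Pool.Agent.BF.RL.Inv
import Pool.Agent.BF.RL.Pig
import Pool.Agent.BF.RL.Wlk
import Pool.Agent.BF.RL.Hvc

namespace Pool.Agent.BF.RL

/-- THE INDUCTION STEP (logical part).
Proof.  Suppose all views of `Wk` are mixed.  For `o ∈ Wk` let `s_o` be the first mixed block (`exists_fst`); let `ss` be
the largest one, attained at `o1`.  Put `A` = the views of `Wk` with `s_o < ss`; then `|A| ≤ v` (even `≤ v - 1`: `o1 ∉ A`)
and at `ss` the prefixes of all `o ∈ A` are mixed (`fst_mixP`).  `H i := {o ∈ A | Hvy k v G (x o) (π o) i ss}`; `pig` gives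
`i ≤ v` with `H (i+1) ⊆ ⋃_{i' ≤ i} H i'`; `Wk' := A \ H (i+1)`.  `choose_index` with `Qs = Q k v (i+1)`, `M o j = Mrg ..`
gives `j` with `¬ Mrg` for all `o ∈ Wk'`.
Case `Wk'` nonempty: apply `hR'` to the hashed views `fun o w => G ss j (pre ss (x o w))`, weak set `Wk'`: `|Wk'| ≤ v - 1`;
the claims of `Wk` respect `Wk'` (`inv_Fst`, `inv_Hvy`); outside `Wk'` the hashed values are equal: (not in `Wk`: equal
views), (`s_o = ss`: r1'), (in `H (i+1)`, hence in some `H i'`, `i' ≤ i`: r3' with `Q (i+1) ⊆ Q (i'+1)`, `Q_mono`).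
The conclusion of `hR'` says that some `o ∈ Wk'` is merged: contradiction.
Case `Wk'` empty: then block `ss` has equal contents along all claims (outside `Wk`: equal views; `s_o = ss`: r1;
in `H (i+1)`: r3), so `walk_const` with `f (o, w) = x o w ss` contradicts the mixed block `ss` of `o1`. -/
theorem good_of_rec (E v k S B h : ℕ) (hk : 1 ≤ k) (hv : 1 ≤ v) (G : Fam S (k ^ (v + 1)) B h) (C' C : Type)
    (R' : View E (Fin h → Bool) → Prl E → C') (R : View E (Vec S B) → Prl E → C)
    (hR : IsRec E v k S B h G R' R) (hR' : Good E (v - 1) (Fin h → Bool) C' R') :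
    Good E v (Vec S B) C R := by
  intro O x π cl Wk hne hcard hclW hclπ hclR hcleq hcon
  by_contra hno
  have hno' : ∀ o ∈ Wk, ∃ w w', π o w w' ∧ x o w ≠ x o w' := by
    intro o ho
    by_contra hcon'
    apply hno
    refine ⟨o, ho, fun w w' hw => ?_⟩
    by_contra hne'
    exact hcon' ⟨w, w', hw, hne'⟩
  have hfst : ∀ o ∈ Wk, ∃ s, Fst (x o) (π o) s := fun o ho => exists_fst (x o) (π o) (hno' o ho)
  have hS : Nonempty (Fin S) := by
    obtain ⟨o, ho⟩ := hne
    obtain ⟨s, _⟩ := hfst o ho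
    exact ⟨s⟩
  choose! sf hsf using hfst
  obtain ⟨o1, ho1, hmax⟩ := Finset.exists_max_image Wk sf hne
  have key : ∀ o o', cl o o' → o ∈ Wk → o' ∈ Wk ∧ R (x o) (π o) = R (x o') (π o) ∧ sf o' = sf o ∧
      ∀ i, (Hvy k v G (x o) (π o) i (sf o1) ↔ Hvy k v G (x o') (π o') i (sf o1)) := by
    intro o o' hc ho
    have ho' : o' ∈ Wk := (hclW o o' hc).1 ho
    have hπ := hclπ o o' hc ho
    have e : R (x o) (π o) = R (x o') (π o) := by
      have := hclR o o' hc ho
      rw [← hπ] at this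
      exact this
    refine ⟨ho', e, ?_, ?_⟩
    · have h1 : Fst (x o') (π o) (sf o) := (inv_Fst hR e (sf o)).1 (hsf o ho)
      have h2 : Fst (x o') (π o) (sf o') := by
        have := hsf o' ho'
        rw [← hπ] at this
        exact this
      exact fst_unique h2 h1
    · intro i
      rw [← hπ]
      exact inv_Hvy hR e i (sf o1)
  have hA : (Wk.filter (fun o => sf o < sf o1)).card ≤ v :=
    (Finset.card_le_card (Finset.filter_subset _ _)).trans hcard
  have hA' : (Wk.filter (fun o => sf o < sf o1)).card ≤ v - 1 := by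
    have : (Wk.filter (fun o => sf o < sf o1)).card < Wk.card := by
      apply Finset.card_lt_card
      refine ⟨Finset.filter_subset _ _, fun hsub => ?_⟩
      have := hsub ho1
      rw [Finset.mem_filter] at this
      exact lt_irrefl _ this.2
    omega
  obtain ⟨i, hiv, hi⟩ := pig O (Wk.filter (fun o => sf o < sf o1)) v hA
    (fun i => {o | o ∈ Wk.filter (fun o => sf o < sf o1) ∧ Hvy k v G (x o) (π o) i (sf o1)})
    (fun i o ho => ho.1)
  classical
  set W' : Finset O := (Wk.filter (fun o => sf o < sf o1)).filter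
    (fun o => ¬ Hvy k v G (x o) (π o) (i + 1) (sf o1)) with hW'
  have hW'A : W' ⊆ Wk.filter (fun o => sf o < sf o1) := Finset.filter_subset _ _
  have hW'W : ∀ o ∈ W', o ∈ Wk := fun o ho => (Finset.mem_filter.1 (hW'A ho)).1
  have hW'm : ∀ o, o ∈ W' ↔ (o ∈ Wk ∧ sf o < sf o1) ∧ ¬ Hvy k v G (x o) (π o) (i + 1) (sf o1) := by
    intro o
    rw [hW', Finset.mem_filter, Finset.mem_filter]
  have hkp : 1 ≤ k ^ (v + 1 - (i + 1)) := Nat.one_le_pow _ _ hk
  have hQ : (Q k v (i + 1)).Nonempty := by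
    rw [← Finset.card_pos, card_Q k v (i + 1) hk]
    exact hkp
  obtain ⟨j, hjQ, hj⟩ := choose_index O (Fin (k ^ (v + 1))) W' v hv
    ((Finset.card_le_card hW'A).trans hA) (Q k v (i + 1)) hQ
    (fun o j => Mrg G (x o) (π o) (sf o1) j) (by
      intro o ho
      rw [card_Q k v (i + 1) hk]
      have hm := (hW'm o).1 ho
      have hmix : MixP (x o) (π o) (sf o1) := fst_mixP (hsf o hm.1.1) hm.1.2
      by_contra hlt
      apply hm.2
      refine ⟨hmix, ?_⟩
      exact not_lt.1 hlt)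
  have hheavy : ∀ o ∈ Wk, sf o < sf o1 → o ∉ W' → ∃ i', i' ≤ i ∧ Hvy k v G (x o) (π o) i' (sf o1) := by
    intro o ho hlt hn
    have hv1 : Hvy k v G (x o) (π o) (i + 1) (sf o1) := by
      by_contra hh
      exact hn ((hW'm o).2 ⟨⟨ho, hlt⟩, hh⟩)
    obtain ⟨i', hi', hmem⟩ := hi o ⟨Finset.mem_filter.2 ⟨ho, hlt⟩, hv1⟩
    exact ⟨i', hi', hmem.2⟩
  by_cases hW'e : W'.Nonempty
  · have hfin := hR' O (fun o w => G (sf o1) j (pre (sf o1) (x o w))) π cl W' hW'e
      ((Finset.card_le_card hW'A).trans hA') ?_ ?_ ?_ ?_ ?_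
    · obtain ⟨o, ho, hmrg⟩ := hfin
      exact hj o ho hmrg
    · intro o o' hc
      constructor
      · intro ho
        obtain ⟨⟨h1, h2⟩, h3⟩ := (hW'm o).1 ho
        obtain ⟨k1, k2, k3, k4⟩ := key o o' hc h1
        refine (hW'm o').2 ⟨⟨k1, ?_⟩, ?_⟩
        · rw [k3]; exact h2
        · intro hh
          exact h3 ((k4 (i + 1)).2 hh)
      · intro ho'
        obtain ⟨⟨h1, h2⟩, h3⟩ := (hW'm o').1 ho'
        have ho : o ∈ Wk := (hclW o o' hc).2 h1
        obtain ⟨k1, k2, k3, k4⟩ := key o o' hc ho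
        refine (hW'm o).2 ⟨⟨ho, ?_⟩, ?_⟩
        · rw [← k3]; exact h2
        · intro hh
          exact h3 ((k4 (i + 1)).1 hh)
    · intro o o' hc ho
      exact hclπ o o' hc (hW'W o ho)
    · intro o o' hc ho
      obtain ⟨k1, k2, k3, k4⟩ := key o o' hc (hW'W o ho)
      rw [← hclπ o o' hc (hW'W o ho)]
      exact hR.r2 (x o) (x o') (π o) k2 (sf o1) j
    · intro o o' hc ho
      by_cases hoW : o ∈ Wk
      · obtain ⟨k1, k2, k3, k4⟩ := key o o' hc hoW
        rcases lt_or_eq_of_le (hmax o hoW) with hlt | heq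
        · obtain ⟨i', hi', hh⟩ := hheavy o hoW hlt ho
          funext w
          exact hR.r3' (x o) (x o') (π o) k2 i' (hi'.trans hiv) (sf o1) hh j
            (Q_mono k v hk (Nat.succ_le_succ hi') hjQ) w
        · funext w
          have hF : Fst (x o) (π o) (sf o1) := by
            rw [← heq]
            exact hsf o hoW
          exact hR.r1' (x o) (x o') (π o) k2 (sf o1) hF j w
      · rw [hcleq o o' hc hoW]
    · intro o ho w w' hw
      exact walk_map x cl (fun y => G (sf o1) j (pre (sf o1) y)) (hcon o (hW'W o ho) w w' hw)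
  · have hemp : ∀ o, o ∉ W' := fun o ho => hW'e ⟨o, ho⟩
    obtain ⟨⟨w, w', hw, hneq⟩, _⟩ := hsf o1 ho1
    apply hneq
    have := walk_const x cl (fun p => x p.1 p.2 (sf o1)) ?_ ?_ (hcon o1 ho1 w w' hw)
    · exact this
    · intro o o' u hc
      show x o u (sf o1) = x o' u (sf o1)
      by_cases hoW : o ∈ Wk
      · obtain ⟨k1, k2, k3, k4⟩ := key o o' hc hoW
        rcases lt_or_eq_of_le (hmax o hoW) with hlt | heq
        · obtain ⟨i', hi', hh⟩ := hheavy o hoW hlt (hemp o)
          exact hR.r3 (x o) (x o') (π o) k2 i' (hi'.trans hiv) (sf o1) hh u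
        · have hF : Fst (x o) (π o) (sf o1) := by
            rw [← heq]
            exact hsf o hoW
          exact hR.r1 (x o) (x o') (π o) k2 (sf o1) hF u
      · rw [hcleq o o' hc hoW]
    · intro p q hpq
      show x p.1 p.2 (sf o1) = x q.1 q.2 (sf o1)
      rw [hpq]

end Pool.Agent.BF.RL
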