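import Mathlib

namespace Pool.Agent.BF.RL

/-- the choice of the parameters (order: k, δ, S, N', l0). -/
theorem params (E v N : ℕ) (hv : 1 ≤ v) (hN : 1 ≤ N) (hE : 1 ≤ E) :
    ∃ k δ S N' : ℕ, 1 ≤ k ∧ 1 ≤ δ ∧ 1 ≤ S ∧ ∀ l1 : ℕ, ∃ l0 : ℕ, ∀ l, l0 ≤ l → ∃ B h p : ℕ,
      l ≤ S * B ∧ l1 ≤ h ∧ S * B * E + E * E + S * k ^ (v + 1) < h * p ∧
      ∀ (b' : ℕ) (t : ℕ → ℕ), N' * b' ≤ h → (∀ i, i ≤ v → k ^ (v + 1 - i) * t i ≤ 4 * v * p) →
        N * (S * E * E + S * k ^ (v + 1) * E * E + (E * B + k ^ (v + 1) * E * h) + S * k ^ (v + 1) * b' +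
          ∑ i ∈ Finset.range (v + 1), (S + t i * (E * B + k ^ (v - i) * E * h))) ≤ l := by
  obtain ⟨k, hk⟩ : ∃ k, k = 32 * N * v * (v + 1) * (E + 2) * E := ⟨_, rfl⟩
  have hk1 : 1 ≤ k := by rw [hk]; exact Nat.pos_of_ne_zero (by positivity)
  obtain ⟨g, hg⟩ : ∃ g, g = k ^ (v + 1) := ⟨_, rfl⟩
  have hg1 : 1 ≤ g := by rw [hg]; exact Nat.one_le_pow _ _ hk1
  obtain ⟨δ, hδ⟩ : ∃ δ, δ = 8 * N * g * E := ⟨_, rfl⟩
  have hδ1 : 1 ≤ δ := by rw [hδ]; exact Nat.pos_of_ne_zero (by positivity)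
  obtain ⟨S, hS⟩ : ∃ S, S = 128 * N * v * (v + 1) * δ * (E + 2) * E := ⟨_, rfl⟩
  have hS1 : 1 ≤ S := by rw [hS]; exact Nat.pos_of_ne_zero (by positivity)
  have hS16 : 16 * N * E ≤ S := by
    have h1 : 1 ≤ 8 * v * (v + 1) * δ * (E + 2) := Nat.pos_of_ne_zero (by positivity)
    calc 16 * N * E = (16 * N * E) * 1 := by ring
      _ ≤ (16 * N * E) * (8 * v * (v + 1) * δ * (E + 2)) := Nat.mul_le_mul_left _ h1
      _ = S := by rw [hS]; ring
  refine ⟨k, δ, S, 8 * N * S * g, hk1, hδ1, hS1, fun l1 => ?_⟩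
  refine ⟨δ * l1 + 2 * δ + S + (S * E + E * E + S * g) + 8 * N * (v + 1) * S +
    8 * N * (S * E * E + S * g * E * E), fun l hl => ?_⟩
  have hSl : S ≤ l := by omega
  obtain ⟨B, hB⟩ : ∃ B, B = l / S + 1 := ⟨_, rfl⟩
  obtain ⟨h, hh⟩ : ∃ h, h = l / δ := ⟨_, rfl⟩
  have hh1 : 1 ≤ h := by
    rw [hh, Nat.le_div_iff_mul_le hδ1]; omega
  have hhl1 : l1 ≤ h := by
    rw [hh, Nat.le_div_iff_mul_le hδ1, Nat.mul_comm]; omega
  have hδh : δ * h ≤ l := by rw [hh]; exact Nat.mul_div_le _ _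
  have hh_l : h ≤ l := le_trans (Nat.le_mul_of_pos_left h hδ1) hδh
  have hl2 : l ≤ 2 * δ * h := by
    have h1 : l < δ * (h + 1) := by
      rw [hh]; exact Nat.lt_mul_div_succ l hδ1
    have h2 : δ * (h + 1) ≤ δ * (2 * h) := Nat.mul_le_mul_left _ (by omega)
    calc l ≤ δ * (2 * h) := le_trans h1.le h2
      _ = 2 * δ * h := by ring
  have hBS : l ≤ S * B := by
    rw [hB]; exact (Nat.lt_mul_div_succ l hS1).le
  have hBS2 : S * B ≤ l + S := by
    rw [hB, Nat.mul_add, Nat.mul_one]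
    exact Nat.add_le_add_right (Nat.mul_div_le _ _) _
  have hBS3 : S * B ≤ 2 * l := by omega
  obtain ⟨A, hA⟩ : ∃ A, A = S * B * E + E * E + S * g := ⟨_, rfl⟩
  obtain ⟨p, hp⟩ : ∃ p, p = A / h + 1 := ⟨_, rfl⟩
  have hpA : A < h * p := by rw [hp]; exact Nat.lt_mul_div_succ A hh1
  have hph : h * p ≤ (E + 2) * l := by
    have h1 : h * p ≤ A + h := by
      rw [hp, Nat.mul_add, Nat.mul_one]
      exact Nat.add_le_add_right (Nat.mul_div_le _ _) _
    have h2 : A ≤ (l + S) * E + E * E + S * g := by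
      rw [hA]
      have := Nat.mul_le_mul_right E hBS2
      omega
    have h3 : (l + S) * E = l * E + S * E := by ring
    have h4 : (E + 2) * l = l * E + l + l := by ring
    have h5 : S * E + E * E + S * g ≤ l := by omega
    omega
  have hp2 : p ≤ 2 * δ * (E + 2) := by
    have h1 : h * p ≤ h * (2 * δ * (E + 2)) := by
      calc h * p ≤ (E + 2) * l := hph
        _ ≤ (E + 2) * (2 * δ * h) := Nat.mul_le_mul_left _ hl2
        _ = h * (2 * δ * (E + 2)) := by ring
    exact Nat.le_of_mul_le_mul_left h1 hh1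
  refine ⟨B, h, p, hBS, hhl1, ?_, ?_⟩
  · rw [← hg, ← hA]; exact hpA
  intro b' t hb' ht
  rw [← hg]
  -- the terms of the sum
  have hterm : ∀ i ∈ Finset.range (v + 1),
      8 * N * (v + 1) * (S + t i * (E * B + k ^ (v - i) * E * h)) ≤ 3 * l := by
    intro i hi
    have hiv : i ≤ v := by
      have := Finset.mem_range.mp hi
      omega
    have hti := ht i hiv
    have hpow : k ^ (v + 1 - i) = k ^ (v - i) * k := by
      rw [← pow_succ]; congr 1; omega
    rw [hpow] at hti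
    have hkp : 1 ≤ k ^ (v - i) := Nat.one_le_pow _ _ hk1
    have ht1 : t i ≤ 4 * v * p := by
      refine le_trans ?_ hti
      exact Nat.le_mul_of_pos_left _ (Nat.mul_pos hkp hk1)
    -- first part
    have e1 : 8 * N * (v + 1) * (t i * (E * B)) ≤ l := by
      have h1 : (8 * N * (v + 1) * (t i * (E * B))) * S ≤ l * S := by
        calc (8 * N * (v + 1) * (t i * (E * B))) * S
            = (8 * N * (v + 1) * E) * (t i * (S * B)) := by ring
          _ ≤ (8 * N * (v + 1) * E) * ((4 * v * (2 * δ * (E + 2))) * (2 * l)) := by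
              apply Nat.mul_le_mul_left
              exact Nat.mul_le_mul (le_trans ht1 (Nat.mul_le_mul_left _ hp2)) hBS3
          _ = l * S := by rw [hS]; ring
      exact Nat.le_of_mul_le_mul_right h1 hS1
    have e2 : 8 * N * (v + 1) * (t i * (k ^ (v - i) * E * h)) ≤ l := by
      have h1 : (8 * N * (v + 1) * (t i * (k ^ (v - i) * E * h))) * k ≤ l * k := by
        calc (8 * N * (v + 1) * (t i * (k ^ (v - i) * E * h))) * k
            = (8 * N * (v + 1) * E * h) * (k ^ (v - i) * k * t i) := by ring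
          _ ≤ (8 * N * (v + 1) * E * h) * (4 * v * p) := Nat.mul_le_mul_left _ hti
          _ = (8 * N * (v + 1) * E * (4 * v)) * (h * p) := by ring
          _ ≤ (8 * N * (v + 1) * E * (4 * v)) * ((E + 2) * l) := Nat.mul_le_mul_left _ hph
          _ = l * k := by rw [hk]; ring
      exact Nat.le_of_mul_le_mul_right h1 hk1
    have e3 : 8 * N * (v + 1) * S ≤ l := by omega
    calc 8 * N * (v + 1) * (S + t i * (E * B + k ^ (v - i) * E * h))
        = 8 * N * (v + 1) * S + 8 * N * (v + 1) * (t i * (E * B)) +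
          8 * N * (v + 1) * (t i * (k ^ (v - i) * E * h)) := by ring
      _ ≤ 3 * l := by omega
  have hsum : 8 * N * ∑ i ∈ Finset.range (v + 1), (S + t i * (E * B + k ^ (v - i) * E * h)) ≤ 3 * l := by
    have h1 : (v + 1) * (8 * N * ∑ i ∈ Finset.range (v + 1), (S + t i * (E * B + k ^ (v - i) * E * h))) ≤
        (v + 1) * (3 * l) := by
      calc (v + 1) * (8 * N * ∑ i ∈ Finset.range (v + 1), (S + t i * (E * B + k ^ (v - i) * E * h)))
          = ∑ i ∈ Finset.range (v + 1), 8 * N * (v + 1) * (S + t i * (E * B + k ^ (v - i) * E * h)) := by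
            rw [← Finset.mul_sum]; ring
        _ ≤ ∑ i ∈ Finset.range (v + 1), 3 * l := Finset.sum_le_sum hterm
        _ = (v + 1) * (3 * l) := by simp
    exact Nat.le_of_mul_le_mul_left h1 (Nat.succ_pos v)
  have f1 : 8 * N * (S * E * E + S * g * E * E) ≤ l := by omega
  have f2 : 8 * N * (E * B) ≤ l := by
    have h1 : (8 * N * (E * B)) * S ≤ l * S := by
      calc (8 * N * (E * B)) * S = (8 * N * E) * (S * B) := by ring
        _ ≤ (8 * N * E) * (2 * l) := Nat.mul_le_mul_left _ hBS3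
        _ = l * (16 * N * E) := by ring
        _ ≤ l * S := Nat.mul_le_mul_left _ hS16
    exact Nat.le_of_mul_le_mul_right h1 hS1
  have f3 : 8 * N * (g * E * h) ≤ l := by
    calc 8 * N * (g * E * h) = δ * h := by rw [hδ]; ring
      _ ≤ l := hδh
  have f4 : 8 * N * (S * g * b') ≤ l := by
    calc 8 * N * (S * g * b') = 8 * N * S * g * b' := by ring
      _ ≤ h := hb'
      _ ≤ l := hh_l
  have htot : 8 * (N * (S * E * E + S * g * E * E + (E * B + g * E * h) + S * g * b' +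
          ∑ i ∈ Finset.range (v + 1), (S + t i * (E * B + k ^ (v - i) * E * h)))) ≤ 8 * l := by
    calc 8 * (N * (S * E * E + S * g * E * E + (E * B + g * E * h) + S * g * b' +
          ∑ i ∈ Finset.range (v + 1), (S + t i * (E * B + k ^ (v - i) * E * h))))
        = 8 * N * (S * E * E + S * g * E * E) + 8 * N * (E * B) + 8 * N * (g * E * h) +
          8 * N * (S * g * b') +
          8 * N * ∑ i ∈ Finset.range (v + 1), (S + t i * (E * B + k ^ (v - i) * E * h)) := by ring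
      _ ≤ 8 * l := by omega
  omega

end Pool.Agent.BF.RL
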