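import Mathlib

namespace Pool.Agent.BF.RL

private def Spa_rank {S : ℕ} {D : Type} (f : Fin S → Option D) (s : Fin S) : ℕ :=
  (Finset.univ.filter (fun s' => s' < s ∧ (f s').isSome = true)).card

private theorem Spa_rank_lt {S : ℕ} {D : Type} (f : Fin S → Option D) {s s' : Fin S}
    (h : s < s') (hs : (f s).isSome = true) : Spa_rank f s < Spa_rank f s' := by
  unfold Spa_rank
  apply Finset.card_lt_card
  rw [Finset.ssubset_iff_of_subset]
  · refine ⟨s, ?_, ?_⟩
    · simp [h, hs]
    · simp
  · intro a ha
    simp only [Finset.mem_filter, Finset.mem_univ, true_and] at ha ⊢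
    exact ⟨lt_trans ha.1 h, ha.2⟩

private theorem Spa_rank_inj {S : ℕ} {D : Type} (f : Fin S → Option D) {s s' : Fin S}
    (hs : (f s).isSome = true) (hs' : (f s').isSome = true)
    (h : Spa_rank f s = Spa_rank f s') : s = s' := by
  rcases lt_trichotomy s s' with h1 | h1 | h1
  · exact absurd h (Spa_rank_lt f h1 hs).ne
  · exact h1
  · exact absurd h.symm (Spa_rank_lt f h1 hs').ne

private theorem Spa_rank_bound {S : ℕ} {D : Type} (f : Fin S → Option D) {s : Fin S}
    (hs : (f s).isSome = true) {t : ℕ}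
    (ht : (Finset.univ.filter (fun s => (f s).isSome = true)).card ≤ t) : Spa_rank f s < t := by
  refine lt_of_lt_of_le ?_ ht
  unfold Spa_rank
  apply Finset.card_lt_card
  rw [Finset.ssubset_iff_of_subset]
  · refine ⟨s, ?_, ?_⟩
    · simp [hs]
    · simp
  · intro a ha
    simp only [Finset.mem_filter, Finset.mem_univ, true_and] at ha ⊢
    exact ha.2

private theorem Spa_congr {S : ℕ} {D : Type} {f f' : Fin S → Option D}
    (h : ∀ s, (f s).isSome = (f' s).isSome) (s : Fin S) : Spa_rank f s = Spa_rank f' s := by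
  unfold Spa_rank
  congr 1
  ext a
  simp [h a]

open Classical in
private noncomputable def Spa_slot {S t n : ℕ} {D : Type} (c : D → (Fin n → Bool))
    (f : Fin S → Option D) (i : Fin t) : Fin n → Bool :=
  if h : ∃ p : Fin S × D, f p.1 = some p.2 ∧ Spa_rank f p.1 = i.val then c h.choose.2
  else fun _ => false

private theorem Spa_slot_eq {S t n : ℕ} {D : Type} (c : D → (Fin n → Bool))
    (f : Fin S → Option D) (i : Fin t) {s : Fin S} {d : D} (hs : f s = some d)
    (hi : Spa_rank f s = i.val) : Spa_slot c f i = c d := by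
  have hex : ∃ p : Fin S × D, f p.1 = some p.2 ∧ Spa_rank f p.1 = i.val := ⟨(s, d), hs, hi⟩
  unfold Spa_slot
  rw [dif_pos hex]
  have h1 := hex.choose_spec
  have h2 : hex.choose.1 = s := by
    apply Spa_rank_inj f
    · rw [h1.1]; rfl
    · rw [hs]; rfl
    · rw [h1.2, hi]
  have h3 := h1.1
  rw [h2, hs] at h3
  rw [Option.some.inj h3]

/-- sparse functions have short codes. -/
theorem sparse_code (S t n : ℕ) (D : Type) (c : D → (Fin n → Bool)) (hc : Function.Injective c) :
    ∃ code : (Fin S → Option D) → (Fin (S + t * n) → Bool), ∀ f f' : Fin S → Option D,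
      (Finset.univ.filter (fun s => (f s).isSome = true)).card ≤ t →
      (Finset.univ.filter (fun s => (f' s).isSome = true)).card ≤ t → code f = code f' → f = f' := by
  classical
  have hcard : Fintype.card ((Fin S → Bool) × (Fin t → Fin n → Bool)) =
      Fintype.card (Fin (S + t * n) → Bool) := by
    simp only [Fintype.card_prod, Fintype.card_fun, Fintype.card_bool, Fintype.card_fin]
    rw [pow_add, mul_comm t n, pow_mul]
  obtain ⟨e⟩ : Nonempty (((Fin S → Bool) × (Fin t → Fin n → Bool)) ≃ (Fin (S + t * n) → Bool)) :=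
    Fintype.card_eq.mp hcard
  refine ⟨fun f => e (fun s => (f s).isSome, fun i => Spa_slot c f i), ?_⟩
  intro f f' hf hf' h
  have h1 := e.injective h
  rw [Prod.mk.injEq] at h1
  obtain ⟨h2, h3⟩ := h1
  have h2' : ∀ s, (f s).isSome = (f' s).isSome := fun s => congrFun h2 s
  funext s
  rcases hfs : f s with _ | d
  · have h4 := h2' s
    rw [hfs] at h4
    rcases hfs' : f' s with _ | d'
    · rfl
    · rw [hfs'] at h4
      simp at h4
  · have h4 := h2' s
    rw [hfs] at h4
    rcases hfs' : f' s with _ | d'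
    · rw [hfs'] at h4
      simp at h4
    · have hs : (f s).isSome = true := by rw [hfs]; rfl
      have hr := Spa_rank_bound f hs hf
      have h5 := congrFun h3 ⟨Spa_rank f s, hr⟩
      rw [Spa_slot_eq c f ⟨Spa_rank f s, hr⟩ hfs rfl,
        Spa_slot_eq c f' ⟨Spa_rank f s, hr⟩ hfs' (Spa_congr h2' s).symm] at h5
      rw [hc h5]

end Pool.Agent.BF.RL
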