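import Pool.Agent.BF.RL.Defs
import Pool.Agent.BF.RL.Spa

namespace Pool.Agent.BF.RL

private theorem Rec_emb {T : Type} [Finite T] {b : ℕ} (h : Nat.card T ≤ 2 ^ b) :
    ∃ c : T → (Fin b → Bool), Function.Injective c := by
  have := Fintype.ofFinite T
  rw [Nat.card_eq_fintype_card] at h
  have h' : Fintype.card T ≤ Fintype.card (Fin b → Bool) := by simpa using h
  obtain ⟨e⟩ := Function.Embedding.nonempty_of_card_le h'
  exact ⟨e, e.injective⟩

private theorem Rec_nc {a : ℕ} {T : Type} {m : ℕ} (h : Nat.card T = 2 ^ m) :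
    Nat.card (Fin a → T) = 2 ^ (a * m) := by
  rw [Nat.card_fun, Nat.card_fin, h, ← pow_mul, mul_comm]

private theorem Rec_nb : Nat.card Bool = 2 ^ 1 := by simp

private theorem Rec_cardQ {k v i : ℕ} (hk : 1 ≤ k) :
    (Q k v i).card = k ^ (v + 1 - i) := by
  have hle : k ^ (v + 1 - i) ≤ k ^ (v + 1) := Nat.pow_le_pow_right hk (Nat.sub_le _ _)
  unfold Q
  have : (Finset.univ.filter (fun j : Fin (k ^ (v + 1)) => j.val < k ^ (v + 1 - i))).card
      = (Finset.univ : Finset (Fin (k ^ (v + 1 - i)))).card := by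
    symm
    refine Finset.card_bij (fun a _ => Fin.castLE hle a) ?_ ?_ ?_
    · intro a _
      simp
    · intro a _ a' _ h
      exact Fin.castLE_injective hle h
    · intro j hj
      simp only [Finset.mem_filter, Finset.mem_univ, true_and] at hj
      exact ⟨⟨j.val, hj⟩, Finset.mem_univ _, by ext; simp⟩
  rw [this]
  simp

private theorem Rec_Fst_unique {E S B : ℕ} {y : View E (Vec S B)} {π : Prl E} {s s' : Fin S}
    (h : Fst y π s) (h' : Fst y π s') : s = s' := by
  rcases lt_trichotomy s s' with hlt | heq | hlt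
  · exact absurd h.1 (h'.2 s hlt)
  · exact heq
  · exact absurd h'.1 (h.2 s' hlt)

/-- the type of the records -/
abbrev Rec_T (E v k S B h b' : ℕ) (t : ℕ → ℕ) : Type := (Fin S → Fin E → Fin E → Bool) ×
    (Fin S → Fin (k ^ (v + 1)) → Fin E → Fin E → Bool) ×
    ((Fin E → Fin B → Bool) × (Fin (k ^ (v + 1)) → Fin E → Fin h → Bool)) ×
    (Fin S → Fin (k ^ (v + 1)) → Fin b' → Bool) ×
    (∀ i : Fin (v + 1), Fin (S + t i * (E * B + k ^ (v - i) * E * h)) → Bool)

private theorem Rec_fin (E v k S B h b' : ℕ) (t : ℕ → ℕ) : Finite (Rec_T E v k S B h b' t) := by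
  have h1 : Finite (∀ i : Fin (v + 1), Fin (S + t i * (E * B + k ^ (v - i) * E * h)) → Bool) :=
    @Pi.finite _ _ _ (fun _ => inferInstance)
  have h2 : Finite ((Fin S → Fin (k ^ (v + 1)) → Fin b' → Bool) ×
    (∀ i : Fin (v + 1), Fin (S + t i * (E * B + k ^ (v - i) * E * h)) → Bool)) := inferInstance
  have h3 : Finite ((Fin E → Fin B → Bool) × (Fin (k ^ (v + 1)) → Fin E → Fin h → Bool)) :=
    inferInstance
  have h4 : Finite (Fin S → Fin E → Fin E → Bool) := inferInstance
  have h5 : Finite (Fin S → Fin (k ^ (v + 1)) → Fin E → Fin E → Bool) := inferInstance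
  exact @Finite.instProd _ _ h4 (@Finite.instProd _ _ h5 (@Finite.instProd _ _ h3 h2))

/-- the content of a heavy level -/
abbrev Rec_D (E k v B h i : ℕ) : Type :=
  (Fin E → Fin B → Bool) × ({j : Fin (k ^ (v + 1)) // j ∈ Q k v (i + 1)} → Fin E → Fin h → Bool)

open Classical in
private noncomputable def Rec_f {E S B h : ℕ} (k v : ℕ) (G : Fam S (k ^ (v + 1)) B h) (i : ℕ)
    (y : View E (Vec S B)) (π : Prl E) : Fin S → Option (Rec_D E k v B h i) := fun s =>
  if Hvy k v G y π i s then
    some (fun w => y w s, fun j w => G s j.1 (pre s (y w)))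
  else none

open Classical in
/-- a record with few bits.  `t i` bounds the number of heavy levels of kind `i` of every view.
Proof: concatenate (equality bits of blocks: S*E*E), (equality bits of hashes: S*k^(v+1)*E*E), (contents and hashes at
the first mixed block: E*B + k^(v+1)*E*h), (R' of all hashed views: S*k^(v+1)*b'), and for i = 0..v the sparse function
`s ↦ if Hvy i s then some (contents of block s, hashes (s,j) for j ∈ Q (i+1)) else none` (`sparse_code`). -/
theorem exists_rec (E v k S B h b' : ℕ) (hk : 1 ≤ k) (G : Fam S (k ^ (v + 1)) B h)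
    (R' : View E (Fin h → Bool) → Prl E → (Fin b' → Bool)) (t : ℕ → ℕ)
    (ht : ∀ i, i ≤ v → ∀ (y : View E (Vec S B)) (π : Prl E),
      (Finset.univ.filter (fun s => Hvy k v G y π i s)).card ≤ t i)
    (b : ℕ)
    (hb : S * E * E + S * k ^ (v + 1) * E * E + (E * B + k ^ (v + 1) * E * h) + S * k ^ (v + 1) * b' +
      ∑ i ∈ Finset.range (v + 1), (S + t i * (E * B + k ^ (v - i) * E * h)) ≤ b) :
    ∃ R : View E (Vec S B) → Prl E → (Fin b → Bool), IsRec E v k S B h G R' R := by
  -- injections of the contents of heavy levels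
  have hc : ∀ i : ℕ, ∃ c : Rec_D E k v B h i → (Fin (E * B + k ^ (v - i) * E * h) → Bool),
      Function.Injective c := by
    intro i
    apply Rec_emb
    have h1 : Nat.card (Fin E → Fin B → Bool) = 2 ^ (E * B) := by
      rw [Rec_nc (Rec_nc Rec_nb), mul_one]
    have h2 : Nat.card ({j : Fin (k ^ (v + 1)) // j ∈ Q k v (i + 1)} → Fin E → Fin h → Bool)
        = 2 ^ (k ^ (v - i) * E * h) := by
      rw [Nat.card_fun, Rec_nc (Rec_nc Rec_nb), Nat.card_eq_fintype_card, Fintype.card_coe,
        Rec_cardQ hk, ← pow_mul]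
      congr 1
      rw [show v + 1 - (i + 1) = v - i by omega]
      ring
    unfold Rec_D
    rw [Nat.card_prod, h1, h2, ← pow_add]
  choose c hcinj using hc
  have hcode := fun i : ℕ => sparse_code S (t i) (E * B + k ^ (v - i) * E * h)
    (Rec_D E k v B h i) (c i) (hcinj i)
  choose code hcode using hcode
  -- the tuple
  have hcardT : Nat.card (Rec_T E v k S B h b' t) ≤ 2 ^ b := by
    have e : Nat.card (Rec_T E v k S B h b' t) = 2 ^ (S * E * E + S * k ^ (v + 1) * E * E +
        (E * B + k ^ (v + 1) * E * h) + S * k ^ (v + 1) * b' +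
        ∑ i ∈ Finset.range (v + 1), (S + t i * (E * B + k ^ (v - i) * E * h))) := by
      have e5 : Nat.card (∀ i : Fin (v + 1),
          Fin (S + t i * (E * B + k ^ (v - i) * E * h)) → Bool)
          = 2 ^ (∑ i ∈ Finset.range (v + 1), (S + t i * (E * B + k ^ (v - i) * E * h))) := by
        rw [Nat.card_pi]
        have : ∀ i : Fin (v + 1), Nat.card (Fin (S + t i * (E * B + k ^ (v - i) * E * h)) → Bool)
            = 2 ^ (S + t i * (E * B + k ^ (v - i) * E * h)) := by
          intro i
          rw [Rec_nc Rec_nb, mul_one]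
        simp_rw [this]
        rw [Finset.prod_pow_eq_pow_sum]
        congr 1
        exact Fin.sum_univ_eq_sum_range (fun i => S + t i * (E * B + k ^ (v - i) * E * h)) (v + 1)
      unfold Rec_T
      rw [Nat.card_prod, Nat.card_prod, Nat.card_prod, Nat.card_prod, Nat.card_prod, e5,
        Rec_nc (Rec_nc (Rec_nc Rec_nb)), Rec_nc (Rec_nc (Rec_nc (Rec_nc Rec_nb))),
        Rec_nc (Rec_nc Rec_nb), Rec_nc (Rec_nc (Rec_nc Rec_nb)), Rec_nc (Rec_nc (Rec_nc Rec_nb)),
        ← pow_add, ← pow_add, ← pow_add, ← pow_add, ← pow_add]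
      congr 1
      ring
    rw [e]
    exact Nat.pow_le_pow_right (by norm_num) hb
  have hfinT := Rec_fin E v k S B h b' t
  obtain ⟨emb, hemb⟩ := Rec_emb hcardT
  -- the record
  let rec0 : View E (Vec S B) → Prl E → Rec_T E v k S B h b' t := fun y π =>
    (fun s w w' => decide (y w s = y w' s),
     fun s j w w' => decide (G s j (pre s (y w)) = G s j (pre s (y w'))),
     (fun w => if hs : ∃ s, Fst y π s then y w hs.choose else fun _ => false,
      fun j w => if hs : ∃ s, Fst y π s then G hs.choose j (pre hs.choose (y w)) else fun _ => false),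
     fun s j => R' (fun w => G s j (pre s (y w))) π,
     fun i => code i (Rec_f k v G i y π))
  refine ⟨fun y π => emb (rec0 y π), ?_⟩
  have key : ∀ y y' π, emb (rec0 y π) = emb (rec0 y' π) → rec0 y π = rec0 y' π :=
    fun y y' π h => hemb h
  have k0 : ∀ y y' π, rec0 y π = rec0 y' π → ∀ s w w', (y w s = y w' s ↔ y' w s = y' w' s) := by
    intro y y' π h s w w'
    have h1 := congrArg Prod.fst h
    have h2 := congrFun (congrFun (congrFun h1 s) w) w'
    exact decide_eq_decide.1 h2
  have kF : ∀ y y' π, rec0 y π = rec0 y' π → ∀ s, Fst y π s → Fst y' π s := by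
    intro y y' π h s hs
    refine ⟨?_, ?_⟩
    · obtain ⟨w, w', hw, hne⟩ := hs.1
      exact ⟨w, w', hw, fun hh => hne ((k0 y y' π h s w w').2 hh)⟩
    · intro u hu hm
      obtain ⟨w, w', hw, hne⟩ := hm
      exact hs.2 u hu ⟨w, w', hw, fun hh => hne ((k0 y y' π h u w w').1 hh)⟩
  have kch : ∀ (y : View E (Vec S B)) (π : Prl E) (s : Fin S), Fst y π s →
      ∀ hs : ∃ s, Fst y π s, hs.choose = s := by
    intro y π s h1 hs
    exact Rec_Fst_unique hs.choose_spec h1
  have kH : ∀ y y' π, rec0 y π = rec0 y' π → ∀ i, i ≤ v →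
      Rec_f k v G i y π = Rec_f k v G i y' π := by
    intro y y' π he i hi
    have h5 := congrArg (fun p : Rec_T E v k S B h b' t => p.2.2.2.2) he
    have h6 := congrFun h5 ⟨i, by omega⟩
    have hcard : ∀ z : View E (Vec S B),
        (Finset.univ.filter (fun s => (Rec_f k v G i z π s).isSome = true)).card ≤ t i := by
      intro z
      refine le_trans (Finset.card_le_card ?_) (ht i hi z π)
      intro s hs
      simp only [Finset.mem_filter, Finset.mem_univ, true_and] at hs ⊢
      unfold Rec_f at hs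
      by_contra hcon
      rw [if_neg hcon] at hs
      simp at hs
    exact hcode i _ _ (hcard y) (hcard y') h6
  have kH2 : ∀ y y' π, rec0 y π = rec0 y' π → ∀ i, i ≤ v → ∀ s, Hvy k v G y π i s →
      ((fun w => y w s, fun j w => G s j.1 (pre s (y w))) : Rec_D E k v B h i)
        = (fun w => y' w s, fun j w => G s j.1 (pre s (y' w))) := by
    intro y y' π he i hi s hs
    have h1 := congrFun (kH y y' π he i hi) s
    unfold Rec_f at h1
    rw [if_pos hs] at h1
    by_cases hs' : Hvy k v G y' π i s
    · rw [if_pos hs'] at h1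
      exact Option.some.inj h1
    · rw [if_neg hs'] at h1
      exact absurd h1 (by simp)
  constructor
  · intro y y' π he
    exact k0 y y' π (key y y' π he)
  · intro y y' π he s j w w'
    have h1 := congrArg (fun p : Rec_T E v k S B h b' t => p.2.1) (key y y' π he)
    have h2 := congrFun (congrFun (congrFun (congrFun h1 s) j) w) w'
    exact decide_eq_decide.1 h2
  · intro y y' π he s hs w
    have hk' := key y y' π he
    have hs' := kF y y' π hk' s hs
    have h1 := congrFun (congrArg (fun p : Rec_T E v k S B h b' t => p.2.2.1.1) hk') w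
    change (if hs : ∃ s, Fst y π s then y w hs.choose else fun _ => false)
      = (if hs : ∃ s, Fst y' π s then y' w hs.choose else fun _ => false) at h1
    rw [dif_pos ⟨s, hs⟩, dif_pos ⟨s, hs'⟩, kch y π s hs, kch y' π s hs'] at h1
    exact h1
  · intro y y' π he s hs j w
    have hk' := key y y' π he
    have hs' := kF y y' π hk' s hs
    have h1 := congrFun (congrFun (congrArg (fun p : Rec_T E v k S B h b' t => p.2.2.1.2) hk') j) w
    change (if hs : ∃ s, Fst y π s then G hs.choose j (pre hs.choose (y w)) else fun _ => false)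
      = (if hs : ∃ s, Fst y' π s then G hs.choose j (pre hs.choose (y' w)) else fun _ => false) at h1
    rw [dif_pos ⟨s, hs⟩, dif_pos ⟨s, hs'⟩, kch y π s hs, kch y' π s hs'] at h1
    exact h1
  · intro y y' π he s j
    have h1 := congrArg (fun p : Rec_T E v k S B h b' t => p.2.2.2.1) (key y y' π he)
    exact congrFun (congrFun h1 s) j
  · intro y y' π he i hi s hs w
    have h1 := kH2 y y' π (key y y' π he) i hi s hs
    exact congrFun (congrArg Prod.fst h1) w
  · intro y y' π he i hi s hs j hj w
    have h1 := kH2 y y' π (key y y' π he) i hi s hs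
    exact congrFun (congrFun (congrArg Prod.snd h1) ⟨j, hj⟩) w

end Pool.Agent.BF.RL
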