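import Pool.Agent.BF.RL.Defs

namespace Pool.Agent.BF.RL

/-- transfer along injections of the values. -/
theorem good_comp {E v : ℕ} {X Y C : Type} {R : View E Y → Prl E → C} (hR : Good E v Y C R) (ι : X → Y)
    (hι : Function.Injective ι) : Good E v X C (fun x π => R (fun w => ι (x w)) π) := by
  intro O x π cl Wk hne hcard h1 h2 h3 h4 h5
  obtain ⟨o, ho, h⟩ := hR O (fun o w => ι (x o w)) π cl Wk hne hcard h1 h2 h3
    (fun o o' hc hn => by rw [h4 o o' hc hn])
    (fun o ho w w' hp => by
      have hm : ∀ a b : O × Fin E, Step x cl a b → Step (fun o w => ι (x o w)) cl a b := by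
        intro a b hab
        rcases hab with hab | hab
        · exact Or.inl hab
        · exact Or.inr (congrArg ι hab)
      exact Relation.EqvGen.mono hm _ _ (h5 o ho w w' hp))
  exact ⟨o, ho, fun w w' hp => hι (h w w' hp)⟩

/-- transfer along injections of the colours. -/
theorem good_colour {E v : ℕ} {X C C2 : Type} {R : View E X → Prl E → C} (hR : Good E v X C R) (c : C → C2)
    (hc : Function.Injective c) : Good E v X C2 (fun x π => c (R x π)) := by
  intro O x π cl Wk hne hcard h1 h2 h3 h4 h5
  exact hR O x π cl Wk hne hcard h1 h2 (fun o o' hcl hn => hc (h3 o o' hcl hn)) h4 h5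

/-- long bit vectors are vectors of blocks. -/
theorem exists_blocks (l S B : ℕ) (h : l ≤ S * B) : ∃ ι : (Fin l → Bool) → (Fin S → Fin B → Bool),
    Function.Injective ι := by
  refine ⟨fun y s b => if h : s.val * B + b.val < l then y ⟨s.val * B + b.val, h⟩ else false, ?_⟩
  intro y y' hy
  funext i
  have hB : 0 < B := by
    rcases Nat.eq_zero_or_pos B with hB | hB
    · subst hB
      have := i.isLt
      omega
    · exact hB
  have hs : i.val / B < S := by
    rw [Nat.div_lt_iff_lt_mul hB]
    exact lt_of_lt_of_le i.isLt h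
  have hb : i.val % B < B := Nat.mod_lt _ hB
  have h1 := congrFun (congrFun hy ⟨i.val / B, hs⟩) ⟨i.val % B, hb⟩
  have hi : i.val / B * B + i.val % B = i.val := Nat.div_add_mod' _ _
  have hlt : i.val / B * B + i.val % B < l := by rw [hi]; exact i.isLt
  simp only [dif_pos hlt] at h1
  have hfin : (⟨i.val / B * B + i.val % B, hlt⟩ : Fin l) = i := Fin.ext hi
  rw [hfin] at h1
  exact h1

/-- any type with at most `2^l` elements. -/
theorem exists_inj (l : ℕ) (X : Type) [Fintype X] (h : Fintype.card X ≤ 2 ^ l) : ∃ ι : X → (Fin l → Bool),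
    Function.Injective ι := by
  have h2 : Fintype.card X ≤ Fintype.card (Fin l → Bool) := by
    simpa using h
  obtain ⟨f⟩ := Function.Embedding.nonempty_of_card_le h2
  exact ⟨f, f.injective⟩

end Pool.Agent.BF.RL
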