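import Pool.Agent.BF.RL.Defs
import Pool.Agent.BF.RL.Hsh
import Pool.Agent.BF.RL.Hvc
import Pool.Agent.BF.RL.Rec
import Pool.Agent.BF.RL.Log
import Pool.Agent.BF.RL.Prm
import Pool.Agent.BF.RL.Tra

namespace Pool.Agent.BF.RL

open Classical in
/-- the recharging lemma (for the number `v` of weak views). Induction on `v`; `v = 0` is vacuous (`b = 0`);
`N = 0` and `E = 0` are trivial (`E = 0`: `b = 0`, every view is unmixed). -/
theorem recharge_v (E v : ℕ) : Recharge E v := by
  induction v with
  | zero =>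
    intro N
    refine ⟨0, fun l _ => ⟨0, by simp, fun _ _ => fun _ => false, ?_⟩⟩
    intro O x π cl Wk hne hcard
    exfalso
    have : 0 < Wk.card := hne.card_pos
    omega
  | succ v ih =>
    intro N
    rcases Nat.eq_zero_or_pos E with hE | hE
    · subst hE
      refine ⟨0, fun l _ => ⟨0, by simp, fun _ _ => fun _ => false, ?_⟩⟩
      intro O x π cl Wk hne _ _ _ _ _ _
      obtain ⟨o, ho⟩ := hne
      exact ⟨o, ho, fun w => w.elim0⟩
    · obtain ⟨k, δ, S, N', hk, hδ, hS, H⟩ := params E (v + 1) (N + 1) (by omega) (by omega) hE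
      obtain ⟨l1, h1⟩ := ih N'
      obtain ⟨l0, h0⟩ := H l1
      refine ⟨l0, fun l hl => ?_⟩
      obtain ⟨B, h, p, hSB, hl1, hp, hfin⟩ := h0 l hl
      obtain ⟨b', hb', R', hR'⟩ := h1 h hl1
      obtain ⟨G, hG⟩ := exists_hash E S (k ^ (v + 1 + 1)) B h p hp
      have hcount : ∀ i, i ≤ v + 1 → ∀ (y : View E (Vec S B)) (π : Prl E),
          (Finset.univ.filter (fun s => Hvy k (v + 1) G y π i s)).card ≤
            4 * (v + 1) * p / k ^ (v + 1 + 1 - i) := by
        intro i hi y π
        rw [Nat.le_div_iff_mul_le (Nat.pos_of_ne_zero (pow_ne_zero _ (by omega)))]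
        have := heavy_count E k (v + 1) S B h p G hG y π i
        calc _ = k ^ (v + 1 + 1 - i) * (Finset.univ.filter (fun s => Hvy k (v + 1) G y π i s)).card :=
              Nat.mul_comm _ _
          _ ≤ _ := this
      have hfin' := hfin b' (fun i => 4 * (v + 1) * p / k ^ (v + 1 + 1 - i)) hb'
        (fun i hi => Nat.mul_div_le _ _)
      obtain ⟨R, hR⟩ := exists_rec E (v + 1) k S B h b' hk G R'
        (fun i => 4 * (v + 1) * p / k ^ (v + 1 + 1 - i)) hcount _ le_rfl
      have good := good_of_rec E (v + 1) k S B h hk (by omega) G _ _ R' R hR (by simpa using hR')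
      obtain ⟨ι, hι⟩ := exists_blocks l S B hSB
      refine ⟨_, ?_, _, good_comp good ι hι⟩
      refine le_trans ?_ hfin'
      exact Nat.mul_le_mul_right _ (Nat.le_succ N)

end Pool.Agent.BF.RL
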