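import Mathlib

/-! Recharging lemma (helper39) for MP_46e064: definitions. -/

namespace Pool.Agent.BF.RL

open Relation

/-- a view: one value for every word -/
abbrev View (E : ℕ) (X : Type) := Fin E → X

/-- the pairs of words which are to be equal -/
abbrev Prl (E : ℕ) := Fin E → Fin E → Prop

/-- one step between nodes (view, word): a claim step or an exact link -/
def Step {O X : Type} {E : ℕ} (x : O → View E X) (cl : O → O → Prop) (p q : O × Fin E) : Prop :=
  (p.2 = q.2 ∧ cl p.1 q.1) ∨ x p.1 p.2 = x q.1 q.2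

/-- `R` excludes all bad patterns with at most `v` weak views. -/
def Good (E v : ℕ) (X C : Type) (R : View E X → Prl E → C) : Prop :=
  ∀ (O : Type) (x : O → View E X) (π : O → Prl E) (cl : O → O → Prop) (Wk : Finset O),
    Wk.Nonempty → Wk.card ≤ v →
    (∀ o o', cl o o' → (o ∈ Wk ↔ o' ∈ Wk)) →
    (∀ o o', cl o o' → o ∈ Wk → π o = π o') →
    (∀ o o', cl o o' → o ∈ Wk → R (x o) (π o) = R (x o') (π o')) →
    (∀ o o', cl o o' → o ∉ Wk → x o = x o') →
    (∀ o ∈ Wk, ∀ w w', π o w w' → EqvGen (Step x cl) (o, w) (o, w')) →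
    ∃ o ∈ Wk, ∀ w w', π o w w' → x o w = x o w'

/-- vectors of `S` blocks of `B` bits -/
abbrev Vec (S B : ℕ) := Fin S → Fin B → Bool

/-- the prefix before block `s` -/
def pre {S B : ℕ} (s : Fin S) (y : Vec S B) : Vec S B := fun t => if t < s then y t else fun _ => false

/-- a family of hash functions -/
abbrev Fam (S g B h : ℕ) := Fin S → Fin g → Vec S B → (Fin h → Bool)

/-- block `s` is mixed -/
def MixB {E S B : ℕ} (y : View E (Vec S B)) (π : Prl E) (s : Fin S) : Prop :=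
  ∃ w w', π w w' ∧ y w s ≠ y w' s

/-- the prefix before `s` is mixed -/
def MixP {E S B : ℕ} (y : View E (Vec S B)) (π : Prl E) (s : Fin S) : Prop :=
  ∃ w w', π w w' ∧ pre s (y w) ≠ pre s (y w')

/-- the hashes `(s, j)` are merged -/
def Mrg {E S g B h : ℕ} (G : Fam S g B h) (y : View E (Vec S B)) (π : Prl E) (s : Fin S) (j : Fin g) : Prop :=
  ∀ w w', π w w' → G s j (pre s (y w)) = G s j (pre s (y w'))

/-- the nested sets `Q_0 ⊇ Q_1 ⊇ ...` of hash indices, `|Q_i| = k ^ (v+1-i)` -/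
def Q (k v i : ℕ) : Finset (Fin (k ^ (v + 1))) := Finset.univ.filter (fun j => j.val < k ^ (v + 1 - i))

open Classical in
/-- level `s` is heavy of kind `i` -/
def Hvy {E S B h : ℕ} (k v : ℕ) (G : Fam S (k ^ (v + 1)) B h) (y : View E (Vec S B)) (π : Prl E)
    (i : ℕ) (s : Fin S) : Prop :=
  MixP y π s ∧ k ^ (v + 1 - i) ≤ 4 * v * ((Q k v i).filter (fun j => Mrg G y π s j)).card

/-- the first mixed block is `s` -/
def Fst {E S B : ℕ} (y : View E (Vec S B)) (π : Prl E) (s : Fin S) : Prop :=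
  MixB y π s ∧ ∀ t, t < s → ¬ MixB y π t

/-- `R` records everything which is needed (relative to the colouring `R'` of the hashed views) -/
structure IsRec (E v k S B h : ℕ) (G : Fam S (k ^ (v + 1)) B h) {C' C : Type}
    (R' : View E (Fin h → Bool) → Prl E → C') (R : View E (Vec S B) → Prl E → C) : Prop where
  r0 : ∀ y y' π, R y π = R y' π → ∀ s w w', (y w s = y w' s ↔ y' w s = y' w' s)
  r0' : ∀ y y' π, R y π = R y' π → ∀ s j w w',
    (G s j (pre s (y w)) = G s j (pre s (y w')) ↔ G s j (pre s (y' w)) = G s j (pre s (y' w')))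
  r1 : ∀ y y' π, R y π = R y' π → ∀ s, Fst y π s → ∀ w, y w s = y' w s
  r1' : ∀ y y' π, R y π = R y' π → ∀ s, Fst y π s → ∀ j w, G s j (pre s (y w)) = G s j (pre s (y' w))
  r2 : ∀ y y' π, R y π = R y' π → ∀ s j,
    R' (fun w => G s j (pre s (y w))) π = R' (fun w => G s j (pre s (y' w))) π
  r3 : ∀ y y' π, R y π = R y' π → ∀ i, i ≤ v → ∀ s, Hvy k v G y π i s → ∀ w, y w s = y' w s
  r3' : ∀ y y' π, R y π = R y' π → ∀ i, i ≤ v → ∀ s, Hvy k v G y π i s → ∀ j ∈ Q k v (i + 1), ∀ w,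
    G s j (pre s (y w)) = G s j (pre s (y' w))

/-- the statement proved by induction on `v` -/
def Recharge (E v : ℕ) : Prop :=
  ∀ N : ℕ, ∃ l0 : ℕ, ∀ l, l0 ≤ l → ∃ b : ℕ, N * b ≤ l ∧
    ∃ R : View E (Fin l → Bool) → Prl E → (Fin b → Bool), Good E v (Fin l → Bool) (Fin b → Bool) R

end Pool.Agent.BF.RL
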